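import Mathlib
import Pool.Agent.H.MP_e9aa5f_an.E

namespace Pool.Agent.Results.MP_e9aa5f_an.Douglas

open MeasureTheory AddCircle

/-- `f` is essentially bounded and the Riesz projection of `f p` is essentially bounded by a
constant times the supremum of `p` on the circle, for every analytic polynomial `p` -/
def ST (f : UnitAddCircle → ℂ) : Prop :=
  MemLp f ⊤ haarAddCircle ∧ ∃ C : ℝ, ∀ (p : Polynomial ℂ) (B : ℝ),
    (∀ t : UnitAddCircle, ‖p.eval (fourier 1 t)‖ ≤ B) → ∃ g : UnitAddCircle → ℂ,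
      AEStronglyMeasurable g haarAddCircle ∧ (∀ᵐ t ∂haarAddCircle, ‖g t‖ ≤ C * B) ∧
      ∀ n : ℤ, fourierCoeff g n =
        if 0 ≤ n then fourierCoeff (fun t => f t * p.eval (fourier 1 t)) n else 0

open Pool.Agent.H.MP_e9aa5f_an in
theorem result : ∀ f : UnitAddCircle → ℂ, ST f → eLpNorm f ⊤ haarAddCircle < 1 →
    ST fun t => 1 / (1 - f t) := by
  rintro f ⟨h1, N, h2⟩ h3
  have hb : Bd f (eLpNorm f ⊤ haarAddCircle).toReal := ⟨h1.1, by
    filter_upwards [ae_le_eLpNormEssSup (f := f) (μ := haarAddCircle)] with t ht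
    rw [← toReal_enorm]; exact ENNReal.toReal_mono h1.2.ne ht⟩
  have bp : ∀ (p : Polynomial ℂ) (B : ℝ), (∀ t, ‖p.eval (e t)‖ ≤ B) →
      Bd (fun t => p.eval (e t)) B := fun p B hB =>
    bd_an (an_poly p) fun w hw => by obtain ⟨t, rfl⟩ := e_surj hw; exact hB t
  have h4 : TB f N := tb_of hb fun p B hB z hz => by
    obtain ⟨g, g1, g2, g3⟩ := h2 p B hB
    rw [← pc_congr (φ := g) (Bd.int ⟨g1, g2⟩) (hb.mul (bp p B hB)).int
      (fun n hn => by rw [g3, if_pos hn]; rfl) hz]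
    exact pc_HI ⟨⟨g1, g2⟩, fun n hn => by rw [g3, if_neg hn.not_ge]⟩ hz
  obtain ⟨C, K, h5, h6⟩ := main (F := fun x => 1 / (1 - x)) (R := 1) hb h4
    (by simpa using ENNReal.toReal_lt_toReal h1.2.ne (by simp) |>.2 h3)
    (DifferentiableOn.div (by fun_prop) (by fun_prop) fun x hx h0 => by
      simp [← sub_eq_zero.1 h0] at hx)
  refine ⟨memLp_top_of_bound h5.1 C h5.2, K, fun p B hB => ?_⟩
  obtain ⟨g, g1, g2⟩ := bdry (h5.mul (bp p B hB)) (h6.a _ (an_poly p) B fun w hw => by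
    obtain ⟨t, rfl⟩ := e_surj hw; exact hB t)
  refine ⟨g, g1.1.1, g1.1.2, fun n => ?_⟩
  split_ifs with hn
  · exact g2 n hn
  · exact g1.2 n (by omega)

end Pool.Agent.Results.MP_e9aa5f_an.Douglas
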